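import Mathlib

/-!
Group-theoretic core: a finite abelian group with a height function whose nonzero values are
`k` and `2k`, such that `ht g + ht (-g)` counts the coordinates in which `g` is nonzero.
-/

namespace Pool.Agent.Lib_helper87

open Finset

/-- weight sums over a subgroup. -/
theorem sum_weight {G ι : Type*} [AddCommGroup G] [Fintype G] [Fintype ι]
    (K : ι → AddSubgroup G) (H : AddSubgroup G) [∀ g, DecidablePred (fun i => g ∉ K i)]
    [DecidablePred (fun g : G => g ∈ H)] :
    ∑ g ∈ univ.filter (fun g : G => g ∈ H), ((univ.filter (fun i => g ∉ K i)).card : ℤ)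
      = ∑ i, ((Nat.card H : ℤ) - Nat.card (H ⊓ K i : AddSubgroup G)) := by
  classical
  have h1 : ∀ g : G, ((univ.filter (fun i => g ∉ K i)).card : ℤ) = ∑ i, if g ∉ K i then (1 : ℤ) else 0 := by
    intro g
    rw [Finset.card_filter]
    push_cast
    rfl
  simp_rw [h1]
  rw [Finset.sum_comm]
  refine Finset.sum_congr rfl (fun i _ => ?_)
  have h2 : (Nat.card H : ℤ) = ∑ g ∈ univ.filter (fun g : G => g ∈ H), (1 : ℤ) := by
    rw [Finset.sum_const, nsmul_eq_mul, mul_one]
    rw [Nat.card_eq_fintype_card, Fintype.card_subtype]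
  have h3 : (Nat.card (H ⊓ K i : AddSubgroup G) : ℤ)
      = ∑ g ∈ univ.filter (fun g : G => g ∈ H), (if g ∈ K i then (1 : ℤ) else 0) := by
    rw [← Finset.sum_filter, Finset.sum_const, nsmul_eq_mul, mul_one, Finset.filter_filter]
    rw [Nat.card_eq_fintype_card, Fintype.card_subtype]
    congr 2
    ext x
    simp only [Finset.mem_filter, Finset.mem_univ, true_and, AddSubgroup.mem_inf]
  rw [h2, h3, ← Finset.sum_sub_distrib]
  refine Finset.sum_congr rfl (fun g _ => ?_)
  by_cases hg : g ∈ K i <;> simp [hg]

theorem core {G ι : Type*} [AddCommGroup G] [Fintype G] [Fintype ι]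
    (K : ι → AddSubgroup G) [∀ g, DecidablePred (fun i => g ∉ K i)] (ht : G → ℕ) (k a b : ℕ)
    (hk : 2 ≤ k) (hb : 2 ≤ b)
    (hwt : ∀ g, ht g + ht (-g) = (univ.filter (fun i => g ∉ K i)).card)
    (h0 : ht 0 = 0) (h1 : ∀ g, g ≠ 0 → ht g = k ∨ ht g = 2 * k)
    (hB : (univ.filter (fun g => ht g = 2 * k)).card = b)
    (hm : Fintype.card G = 1 + a + b) : a + b + 1 ≤ (4 * b + 4) * k := by
  classical
  set m : ℕ := Fintype.card G with hmdef
  have hmcard : Nat.card G = m := Nat.card_eq_fintype_card
  have hmpos : 0 < m := by omega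
  -- total sum of heights
  have htot : ∑ g, (ht g : ℤ) = k * (m + b - 1) := by
    have hht : ∀ g : G, (ht g : ℤ) = (if g = 0 then 0 else (k : ℤ)) + (if ht g = 2 * k then (k : ℤ) else 0) := by
      intro g
      by_cases hg : g = 0
      · subst hg
        have : (0 : ℕ) ≠ 2 * k := by omega
        simp [h0, this]
      · rcases h1 g hg with h | h
        · have : k ≠ 2 * k := by omega
          simp [hg, h, this]
        · simp [hg, h]
          ring
    simp_rw [hht]
    rw [Finset.sum_add_distrib, ← Finset.sum_filter, Finset.sum_const, hB]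
    have : ∑ x : G, (if x = 0 then (0 : ℤ) else k) = k * (m - 1) := by
      have h : ∀ x : G, (if x = 0 then (0 : ℤ) else k) = k - (if x = 0 then (k : ℤ) else 0) := by
        intro x; by_cases hx : x = 0 <;> simp [hx]
      simp_rw [h]
      rw [Finset.sum_sub_distrib]
      simp [← hmdef]
      ring
    rw [this, nsmul_eq_mul]
    ring
  -- sums of weights over subgroups equal twice the height sums
  have hsumH : ∀ H : AddSubgroup G,
      ∑ i, ((Nat.card H : ℤ) - Nat.card (H ⊓ K i : AddSubgroup G))
        = 2 * ∑ g ∈ univ.filter (fun g : G => g ∈ H), (ht g : ℤ) := by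
    intro H
    rw [← sum_weight K H]
    have h2 : ∑ g ∈ univ.filter (fun g : G => g ∈ H), ((univ.filter (fun i => g ∉ K i)).card : ℤ)
        = ∑ g ∈ univ.filter (fun g : G => g ∈ H), ((ht g : ℤ) + ht (-g)) := by
      refine Finset.sum_congr rfl (fun g _ => ?_)
      rw [← hwt g]; push_cast; rfl
    rw [h2, Finset.sum_add_distrib]
    have h3 : ∑ g ∈ univ.filter (fun g : G => g ∈ H), (ht (-g) : ℤ)
        = ∑ g ∈ univ.filter (fun g : G => g ∈ H), (ht g : ℤ) := by
      refine Finset.sum_nbij' (fun g => -g) (fun g => -g) ?_ ?_ ?_ ?_ ?_ <;> simp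
    rw [h3]; ring
  have htotal : ∑ i, ((m : ℤ) - Nat.card (K i)) = 2 * k * (m + b - 1) := by
    have h := hsumH ⊤
    have h2 : (univ.filter (fun g : G => g ∈ (⊤ : AddSubgroup G))) = univ := by
      ext; simp
    rw [h2, htot] at h
    simp only [top_inf_eq] at h
    have h3 : (Nat.card (⊤ : AddSubgroup G)) = m := by
      rw [AddSubgroup.card_top, hmcard]
    rw [h3] at h
    rw [h]; ring
  -- lower bound of heights over a subgroup
  have hlow : ∀ H : AddSubgroup G,
      (k : ℤ) * ((Nat.card H : ℤ) - 1) ≤ ∑ g ∈ univ.filter (fun g : G => g ∈ H), (ht g : ℤ) := by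
    intro H
    have hcardH : (Nat.card H : ℤ) = ∑ g ∈ univ.filter (fun g : G => g ∈ H), (1 : ℤ) := by
      rw [Finset.sum_const, nsmul_eq_mul, mul_one]
      rw [Nat.card_eq_fintype_card, Fintype.card_subtype]
    have h2 : ∑ g ∈ univ.filter (fun g : G => g ∈ H), ((k : ℤ) - if g = 0 then (k : ℤ) else 0)
        = k * ((Nat.card H : ℤ) - 1) := by
      rw [Finset.sum_sub_distrib]
      rw [Finset.sum_ite_eq']
      simp only [Finset.mem_filter, Finset.mem_univ, true_and, AddSubgroup.zero_mem, if_true]
      rw [hcardH, mul_sub, Finset.mul_sum]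
      simp
    rw [← h2]
    refine Finset.sum_le_sum (fun g _ => ?_)
    by_cases hg : g = 0
    · simp [hg]
    · rcases h1 g hg with h | h
      · simp [hg, h]
      · simp only [hg, h, if_false, sub_zero]
        push_cast
        have : (0 : ℤ) ≤ k := by positivity
        linarith
  -- product inequality
  have hprod : ∀ H H' : AddSubgroup G,
      (Nat.card H : ℤ) * Nat.card H' ≤ m * Nat.card (H ⊓ H' : AddSubgroup G) := by
    intro H H'
    have e1 := H.card_mul_index
    have e2 := H'.card_mul_index
    have e3 := (H ⊓ H').card_mul_index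
    rw [hmcard] at e1 e2 e3
    have e4 : (H ⊓ H').index ≤ H.index * H'.index := AddSubgroup.index_inf_le
    have p3 : 0 < H.index := by
      rcases Nat.eq_zero_or_pos H.index with h | h
      · rw [h] at e1; omega
      · exact h
    have p4 : 0 < H'.index := by
      rcases Nat.eq_zero_or_pos H'.index with h | h
      · rw [h] at e2; omega
      · exact h
    have h5 : (Nat.card H * Nat.card H') * (H.index * H'.index)
        ≤ (m * Nat.card (H ⊓ H' : AddSubgroup G)) * (H.index * H'.index) := by
      calc (Nat.card H * Nat.card H') * (H.index * H'.index)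
          = (Nat.card H * H.index) * (Nat.card H' * H'.index) := by ring
        _ = m * m := by rw [e1, e2]
        _ = m * (Nat.card (H ⊓ H' : AddSubgroup G) * (H ⊓ H').index) := by rw [e3]
        _ ≤ m * (Nat.card (H ⊓ H' : AddSubgroup G) * (H.index * H'.index)) := by gcongr
        _ = _ := by ring
    have := Nat.le_of_mul_le_mul_right h5 (by positivity)
    exact_mod_cast this
  -- key inequality for a coordinate of index n
  have hkey : ∀ i, (m : ℤ) - Nat.card (K i) ≤ 2 * k * ((b : ℤ) - 1 + (K i).index) := by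
    intro i
    have hH := hsumH (K i)
    have hL := hlow (K i)
    have e1 := (K i).card_mul_index
    rw [hmcard] at e1
    have hKpos : (0 : ℤ) < Nat.card (K i) := by
      have : 0 < Nat.card (K i) := Nat.card_pos
      exact_mod_cast this
    have hsplit : ∀ f : ι → ℤ, ∑ j, f j = f i + ∑ j ∈ univ.erase i, f j := by
      intro f
      rw [← Finset.add_sum_erase _ f (Finset.mem_univ i)]
    rw [hsplit] at hH
    have hz : ((Nat.card (K i) : ℤ) - Nat.card (K i ⊓ K i : AddSubgroup G)) = 0 := by
      rw [inf_idem]; ring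
    rw [hz, zero_add] at hH
    have htt := htotal
    rw [hsplit] at htt
    have hle : m * ∑ j ∈ univ.erase i, ((Nat.card (K i) : ℤ) - Nat.card (K i ⊓ K j : AddSubgroup G))
        ≤ Nat.card (K i) * ∑ j ∈ univ.erase i, ((m : ℤ) - Nat.card (K j)) := by
      rw [Finset.mul_sum, Finset.mul_sum]
      refine Finset.sum_le_sum (fun j _ => ?_)
      have := hprod (K i) (K j)
      nlinarith
    rw [hH] at hle
    have e1' : (Nat.card (K i) : ℤ) * (K i).index = m := by exact_mod_cast e1
    set c : ℤ := (Nat.card (K i) : ℤ) with hc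
    set n : ℤ := ((K i).index : ℤ) with hn
    set S : ℤ := ∑ g ∈ univ.filter (fun g : G => g ∈ K i), (ht g : ℤ) with hS
    set R : ℤ := ∑ j ∈ univ.erase i, ((m : ℤ) - Nat.card (K j)) with hR
    have hRv : R = 2 * k * (m + b - 1) - (m - c) := by linarith
    rw [hRv, ← e1'] at hle
    -- c * n * (2 * S) ≤ c * (...)
    have hle2 : n * (2 * S) ≤ 2 * k * (c * n + b - 1) - (c * n - c) := by
      have : c * (n * (2 * S)) ≤ c * (2 * k * (c * n + b - 1) - (c * n - c)) := by linarith
      exact le_of_mul_le_mul_left this hKpos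
    have hn0 : 0 ≤ n := by rw [hn]; positivity
    have : n * (2 * (k * (c - 1))) ≤ n * (2 * S) := by
      apply mul_le_mul_of_nonneg_left _ hn0
      linarith
    rw [← e1']
    nlinarith
  have hmz : (m : ℤ) = 1 + a + b := by exact_mod_cast hm
  have hkz : (2 : ℤ) ≤ k := by exact_mod_cast hk
  have hbz : (2 : ℤ) ≤ b := by exact_mod_cast hb
  suffices hfin : (m : ℤ) ≤ (4 * b + 4) * k by
    have : ((a + b + 1 : ℕ) : ℤ) ≤ (((4 * b + 4) * k : ℕ) : ℤ) := by push_cast; linarith
    exact_mod_cast this
  by_cases hcase : ∃ i, (K i).index = 2 ∨ (K i).index = 3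
  · obtain ⟨i, hi⟩ := hcase
    have h := hkey i
    have e1 := (K i).card_mul_index
    rw [hmcard] at e1
    have e1' : (Nat.card (K i) : ℤ) * (K i).index = m := by exact_mod_cast e1
    rcases hi with hi | hi
    · rw [hi] at h e1'
      push_cast at h e1'
      nlinarith
    · rw [hi] at h e1'
      push_cast at h e1'
      nlinarith
  · push Not at hcase
    -- pick an element of height 2k
    have hne : (univ.filter (fun g => ht g = 2 * k)).Nonempty := by
      rw [← Finset.card_pos, hB]; omega
    obtain ⟨g, hg⟩ := hne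
    simp only [Finset.mem_filter, Finset.mem_univ, true_and] at hg
    have hg0 : g ≠ 0 := by
      rintro rfl
      omega
    have hg1 : k ≤ ht (-g) := by
      rcases h1 (-g) (by simpa using hg0) with h | h <;> omega
    have hw := hwt g
    have hbig : 3 * k ≤ (univ.filter (fun i => g ∉ K i)).card := by omega
    -- each coordinate with g ∉ K i has index ≥ 4
    have hidx : ∀ i, g ∉ K i → (3 : ℤ) * m ≤ 4 * ((m : ℤ) - Nat.card (K i)) := by
      intro i hi
      have e1 := (K i).card_mul_index
      rw [hmcard] at e1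
      have hne1 : (K i).index ≠ 1 := by
        intro h
        rw [AddSubgroup.index_eq_one] at h
        rw [h] at hi
        exact hi (AddSubgroup.mem_top _)
      have hne0 : (K i).index ≠ 0 := by
        intro h; rw [h] at e1; omega
      have h4 : 4 ≤ (K i).index := by
        have := (hcase i).1
        have := (hcase i).2
        omega
      have : Nat.card (K i) * 4 ≤ m := by
        rw [← e1]; gcongr
      have h' : (Nat.card (K i) : ℤ) * 4 ≤ m := by exact_mod_cast this
      linarith
    have hnn : ∀ i, (0 : ℤ) ≤ (m : ℤ) - Nat.card (K i) := by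
      intro i
      have : Nat.card (K i) ≤ m := by
        rw [← hmcard]
        exact AddSubgroup.card_le_card_addGroup (K i)
      have : (Nat.card (K i) : ℤ) ≤ m := by exact_mod_cast this
      linarith
    have hsum : (3 * k : ℤ) * (3 * m) ≤ 4 * ∑ i, ((m : ℤ) - Nat.card (K i)) := by
      have hs1 : ∑ i ∈ univ.filter (fun i => g ∉ K i), ((3 : ℤ) * m)
          ≤ ∑ i ∈ univ.filter (fun i => g ∉ K i), 4 * ((m : ℤ) - Nat.card (K i)) := by
        refine Finset.sum_le_sum (fun i hi => ?_)
        simp only [Finset.mem_filter, Finset.mem_univ, true_and] at hi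
        exact hidx i hi
      have hs2 : ∑ i ∈ univ.filter (fun i => g ∉ K i), 4 * ((m : ℤ) - Nat.card (K i))
          ≤ ∑ i, 4 * ((m : ℤ) - Nat.card (K i)) := by
        refine Finset.sum_le_sum_of_subset_of_nonneg (Finset.filter_subset _ _) (fun i _ _ => ?_)
        have := hnn i
        linarith
      rw [Finset.sum_const, nsmul_eq_mul] at hs1
      rw [← Finset.mul_sum (s := (univ : Finset ι))] at hs2
      have hbig' : (3 * k : ℤ) ≤ ((univ.filter (fun i => g ∉ K i)).card : ℤ) := by exact_mod_cast hbig
      have hm0 : (0 : ℤ) ≤ 3 * m := by positivity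
      calc (3 * k : ℤ) * (3 * m) ≤ ((univ.filter (fun i => g ∉ K i)).card : ℤ) * (3 * m) := by
            exact mul_le_mul_of_nonneg_right hbig' hm0
        _ ≤ _ := by linarith
    rw [htotal] at hsum
    -- 9 k m ≤ 8 k (m + b - 1)
    have hkpos : (0 : ℤ) < k := by linarith
    have h9 : (9 : ℤ) * m ≤ 8 * (m + b - 1) := by
      have : (k : ℤ) * (9 * m) ≤ k * (8 * (m + b - 1)) := by linarith
      exact le_of_mul_le_mul_left this hkpos
    nlinarith

end Pool.Agent.Lib_helper87
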